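import Pool.Agent.NW.Bridge
import Pool.Agent.NW.Absorber
import Pool.Agent.NW.CoverDown
import Pool.Agent.NW.Split
import Pool.Agent.NW.ADFinal

/-!
# The asymptotic Nash-Williams conjecture
-/

namespace Pool.Agent.NWOld.AsymptoticNashWilliams

/-- For every `ε > 0` there is `n₀` such that every simple graph `G` on `n ≥ n₀` vertices with
all degrees even, number of edges divisible by three and minimum degree at least
`(3 / 4 + ε) * n` has a triangle decomposition: a set `𝒯` of triangles of `G` such that every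
edge of `G` lies in exactly one of them. -/
theorem result (ε : ℝ) (hε : 0 < ε) :
    ∃ n₀ : ℕ, ∀ n : ℕ, n₀ ≤ n → ∀ (G : SimpleGraph (Fin n)) [DecidableRel G.Adj],
      (∀ v, Even (G.degree v)) →
      3 ∣ G.edgeFinset.card →
      (∀ v, (3 / 4 + ε) * (n : ℝ) ≤ (G.degree v : ℝ)) →
      ∃ 𝒯 : Finset (Finset (Fin n)), (∀ t ∈ 𝒯, G.IsNClique 3 t) ∧
        ∀ u v : Fin n, G.Adj u v → ∃! t, t ∈ 𝒯 ∧ u ∈ t ∧ v ∈ t := by
  obtain ⟨n₀, h⟩ := (NW.main_of_cover (NW.cover_of NW.split NW.ad_final) NW.absorber).simpleGraph ε hε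
  refine ⟨n₀, fun n hn G _ he hd hdeg => h (Fin n) G ?_ he hd ?_⟩
  · rwa [Fintype.card_fin]
  · intro v
    rw [Fintype.card_fin]
    exact hdeg v

end Pool.Agent.NWOld.AsymptoticNashWilliams
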